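import Pool.Agent.Helper92.TN.StN
import Pool.Agent.Helper28.TK.M_KRN

/-!
# Project T3K, level `p`, module K1R: the root number of a newform of level `p`
-/

set_option autoImplicit false

open Pool.Agent.Helper14.CV (G0 Homog EqC act StFar)
open Pool.Agent.Helper28.WK
open Pool.Agent.Helper14.WK
open Pool.Agent.Helper28.LV
open Pool.Agent.Helper76.TG
open Pool.Agent.Helper28.TK
open Pool.Agent.Helper76.TX (Sg)

namespace Pool.Agent.Helper83.TN

open Pool.Agent.Helper92.TN
open Filter Topology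

/-- A power series which is constant on the punctured unit disc is constant. -/
private lemma coeff_zero_of_const (c : ℕ → ℂ) (k : ℂ)
    (h : ∀ q : ℂ, q ≠ 0 → ‖q‖ < 1 → HasSum (fun m : ℕ => c m * q ^ m) k) :
    ∀ m : ℕ, m ≠ 0 → c m = 0 := by
  intro m hm
  set p : FormalMultilinearSeries ℂ ℂ ℂ := FormalMultilinearSeries.ofScalars ℂ c with hp
  have hpc : ∀ n, p.coeff n = c n := by
    intro n
    rw [hp]
    simp [FormalMultilinearSeries.coeff_ofScalars]
  set g : ℂ → ℂ := fun q => if q = 0 then c 0 else k with hg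
  have hgp : HasFPowerSeriesAt g p 0 := by
    rw [hasFPowerSeriesAt_iff]
    have hball : Metric.ball (0 : ℂ) 1 ∈ 𝓝 (0 : ℂ) := Metric.ball_mem_nhds _ one_pos
    filter_upwards [hball] with z hz
    simp only [Metric.mem_ball, dist_zero_right] at hz
    simp only [hpc, smul_eq_mul, zero_add]
    by_cases h0 : z = 0
    · subst h0
      have h1 : HasSum (fun n : ℕ => (0 : ℂ) ^ n * c n) ((0 : ℂ) ^ 0 * c 0) := by
        refine hasSum_single 0 ?_
        intro n hn
        rw [zero_pow hn, zero_mul]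
      simpa [hg] using h1
    · have h1 := h z h0 hz
      have h2 : (fun n : ℕ => z ^ n * c n) = fun n : ℕ => c n * z ^ n := by
        funext n
        ring
      rw [h2]
      simpa [hg, h0] using h1
  have hcont : ContinuousAt g 0 := hgp.continuousAt
  have h0k : c 0 = k := by
    have h1 : Tendsto g (𝓝[≠] 0) (𝓝 (g 0)) := hcont.tendsto.mono_left nhdsWithin_le_nhds
    have h2 : Tendsto g (𝓝[≠] 0) (𝓝 k) := by
      refine (tendsto_const_nhds (x := k)).congr' ?_
      filter_upwards [self_mem_nhdsWithin] with z hz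
      have hz' : z ≠ 0 := hz
      simp [hg, hz']
    have h3 := tendsto_nhds_unique h1 h2
    simpa [hg] using h3
  have hgk : g = fun _ => k := by
    funext z
    by_cases hz : z = 0
    · simp [hg, hz, h0k]
    · simp [hg, hz]
  rw [hgk] at hgp
  have h3 := hgp.eq_formalMultilinearSeries (hasFPowerSeriesAt_const (𝕜 := ℂ) (c := k) (e := 0))
  have h4 : p.coeff m = 0 := by
    rw [h3]
    unfold FormalMultilinearSeries.coeff
    rw [constFormalMultilinearSeries_apply_of_nonzero hm]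
    rfl
  rw [← hpc m, h4]

/-- The sum of the powers of the `l`-th roots of unity. -/
private lemma root_sum (l : ℕ) (hl : 0 < l) (n : ℕ) :
    ∑ j ∈ Finset.range l, Complex.exp (2 * Real.pi * Complex.I * n * j / l) =
      if l ∣ n then (l : ℂ) else 0 := by
  have hl0 : (l : ℂ) ≠ 0 := by exact_mod_cast hl.ne'
  set w : ℂ := Complex.exp (2 * Real.pi * Complex.I * n / l) with hw
  have h1 : ∀ j : ℕ, Complex.exp (2 * Real.pi * Complex.I * n * j / l) = w ^ j := by
    intro j
    rw [hw, ← Complex.exp_nat_mul]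
    congr 1
    ring
  simp only [h1]
  split_ifs with hdvd
  · obtain ⟨t, rfl⟩ := hdvd
    have hw1 : w = 1 := by
      rw [hw, Complex.exp_eq_one_iff]
      refine ⟨t, ?_⟩
      push_cast
      field_simp
    rw [hw1]
    simp
  · have hw1 : w ≠ 1 := by
      intro h
      rw [hw, Complex.exp_eq_one_iff] at h
      obtain ⟨t, ht⟩ := h
      apply hdvd
      have hpi : (2 * Real.pi * Complex.I : ℂ) ≠ 0 := Complex.two_pi_I_ne_zero
      have h2 : (n : ℂ) = t * l := by
        field_simp at ht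
        have h3 : (2 * Real.pi * Complex.I : ℂ) * n = (2 * Real.pi * Complex.I) * (t * l) := by
          linear_combination (2 * Real.pi * Complex.I : ℂ) * ht
        exact mul_left_cancel₀ hpi h3
      have h3 : (n : ℤ) = t * l := by exact_mod_cast h2
      exact Int.natCast_dvd_natCast.mp ⟨t, by rw [h3]; ring⟩
    have hwl : w ^ l = 1 := by
      rw [hw, ← Complex.exp_nat_mul, Complex.exp_eq_one_iff]
      refine ⟨n, ?_⟩
      push_cast
      field_simp
    rw [geom_sum_eq hw1, hwl, sub_self, zero_div]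

private theorem im_W (r : ℝ) (hr : 0 < r) (z : ℂ) (hz : 0 < z.im) :
    0 < (-1 / ((r : ℂ) * z)).im := by
  have hw : 0 < ((r : ℂ) * z).im := by
    rw [Complex.im_ofReal_mul r z]
    exact mul_pos hr hz
  have hw0 : (r : ℂ) * z ≠ 0 := by
    intro h0
    rw [h0, Complex.zero_im] at hw
    exact lt_irrefl _ hw
  have e : -1 / ((r : ℂ) * z) = -((r : ℂ) * z)⁻¹ := by ring
  rw [e, Complex.neg_im, Complex.inv_im]
  have hn : 0 < Complex.normSq ((r : ℂ) * z) := Complex.normSq_pos.2 hw0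
  have : 0 < ((r : ℂ) * z).im / Complex.normSq ((r : ℂ) * z) := div_pos hw hn
  have e2 : -(-((r : ℂ) * z).im / Complex.normSq ((r : ℂ) * z)) =
      ((r : ℂ) * z).im / Complex.normSq ((r : ℂ) * z) := by ring
  rw [e2]
  exact this

private theorem ne_of_im {z : ℂ} (hz : 0 < z.im) : z ≠ 0 := by
  intro h0
  rw [h0, Complex.zero_im] at hz
  exact lt_irrefl _ hz

private theorem im_WN {N : ℕ} (hN : N ≠ 0) {z : ℂ} (hz : 0 < z.im) :
    0 < (-1 / ((N : ℂ) * z)).im := by
  have h := im_W (N : ℝ) (by exact_mod_cast Nat.pos_of_ne_zero hN) z hz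
  exact_mod_cast h

private lemma fc_zero {N : ℕ} {k : ℤ} (m : ℕ) : fcK (0 : CuspForm (G0 N) k) m = 0 := by
  unfold fcK
  rw [FunLike.coe_zero]
  simp [UpperHalfPlane.qExpansion_zero]

/-- `q = exp(2 π i z)` with `z` in the upper half plane. -/
private lemma exists_z (q : ℂ) (hq0 : q ≠ 0) (hq1 : ‖q‖ < 1) :
    ∃ z : ℂ, 0 < z.im ∧ ∀ m : ℕ, Complex.exp (2 * Real.pi * Complex.I * m * z) = q ^ m := by
  set z : ℂ := Complex.log q / (2 * Real.pi * Complex.I) with hz
  have hzq : Complex.exp (2 * Real.pi * Complex.I * z) = q := by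
    rw [hz, mul_div_cancel₀ _ Complex.two_pi_I_ne_zero, Complex.exp_log hq0]
  refine ⟨z, ?_, ?_⟩
  · by_contra hcon
    push Not at hcon
    have h2 : ‖q‖ = Real.exp (-(2 * Real.pi * z.im)) := by
      rw [← hzq, Complex.norm_exp]
      congr 1
      simp [Complex.mul_re, Complex.mul_im]
    have h3 : (1 : ℝ) ≤ Real.exp (-(2 * Real.pi * z.im)) := by
      apply Real.one_le_exp
      have := Real.pi_pos
      nlinarith [mul_nonneg this.le (neg_nonneg.mpr hcon)]
    linarith
  · intro m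
    rw [← hzq, ← Complex.exp_nat_mul]
    congr 1
    ring

/-- uniqueness of the expansion, for three forms -/
private lemma coeff_rel (h1 : SKA1) {N₁ N₂ : ℕ} (hN₁ : NeZero N₁) (hN₂ : NeZero N₂) {k : ℤ}
    (h : CuspForm (G0 N₁) k) (g f : CuspForm (G0 N₂) k) (c : ℂ)
    (H : ∀ z : ℂ, 0 < z.im → fzK h z = fzK g z + c * fzK f z) (m : ℕ) :
    fcK h m = fcK g m + c * fcK f m := by
  rcases Nat.eq_zero_or_pos m with rfl | hm
  · rw [(h1 N₁ hN₁ k h Complex.I (by simp)).1, (h1 N₂ hN₂ k g Complex.I (by simp)).1,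
      (h1 N₂ hN₂ k f Complex.I (by simp)).1]
    simp
  · have key := coeff_zero_of_const (fun m => fcK h m - (fcK g m + c * fcK f m)) 0 ?_ m hm.ne'
    · exact sub_eq_zero.1 key
    · intro q hq0 hq1
      obtain ⟨z, hz, hexp⟩ := exists_z q hq0 hq1
      have a1 := (h1 N₁ hN₁ k h z hz).2.2.1
      have a2 := (h1 N₂ hN₂ k g z hz).2.2.1
      have a3 := ((h1 N₂ hN₂ k f z hz).2.2.1).mul_left c
      have a4 := a1.sub (a2.add a3)
      rw [H z hz, sub_self] at a4
      have e : (fun m : ℕ => (fcK h m - (fcK g m + c * fcK f m)) * q ^ m) = fun m : ℕ =>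
          fcK h m * Complex.exp (2 * Real.pi * Complex.I * m * z) -
          (fcK g m * Complex.exp (2 * Real.pi * Complex.I * m * z) +
          c * (fcK f m * Complex.exp (2 * Real.pi * Complex.I * m * z))) := by
        funext m
        rw [hexp m]
        ring
      rw [e]
      exact a4

/-- the operator `U_p` -/
private lemma up_sum (h1 : SKA1) {N : ℕ} (hN : NeZero N) {k : ℤ} (f : CuspForm (G0 N) k) (p : ℕ) (hp : 0 < p)
    (hU : ∀ m : ℕ, fcK f (p * m) = fcK f p * fcK f m) (z : ℂ) (hz : 0 < z.im) :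
    ∑ i ∈ Finset.range p, fzK f ((z + i) / p) = (p * fcK f p) * fzK f z := by
  have hp0 : (p : ℂ) ≠ 0 := by exact_mod_cast hp.ne'
  have h2 : ∀ j ∈ Finset.range p, HasSum (fun m : ℕ => fcK f m *
      Complex.exp (2 * Real.pi * Complex.I * m * ((z + j) / p))) (fzK f ((z + j) / p)) := by
    intro j _
    refine (h1 N hN k f _ ?_).2.2.1
    have e : (z + j) / (p : ℂ) = (((p : ℝ)⁻¹ : ℝ) : ℂ) * (z + (j : ℝ)) := by
      push_cast
      field_simp
    rw [e, Complex.im_ofReal_mul, Complex.add_im, Complex.ofReal_im, add_zero]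
    exact mul_pos (inv_pos.2 (by exact_mod_cast hp)) hz
  have h3 := hasSum_sum h2
  have h4 : (fun m : ℕ => ∑ j ∈ Finset.range p, fcK f m *
      Complex.exp (2 * Real.pi * Complex.I * m * ((z + j) / p))) =
      fun m : ℕ => if p ∣ m then p * fcK f m * Complex.exp (2 * Real.pi * Complex.I * m * (z / p)) else 0 := by
    funext m
    have h5 : ∀ j : ℕ, Complex.exp (2 * Real.pi * Complex.I * m * ((z + j) / p)) =
        Complex.exp (2 * Real.pi * Complex.I * m * (z / p)) *
          Complex.exp (2 * Real.pi * Complex.I * m * j / p) := by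
      intro j
      rw [← Complex.exp_add]
      congr 1
      ring
    simp only [h5]
    rw [← Finset.mul_sum, ← Finset.mul_sum, root_sum p hp m]
    split_ifs with hd
    · ring
    · ring
  rw [h4] at h3
  have hinj : Function.Injective fun m : ℕ => p * m := fun a b hab => Nat.eq_of_mul_eq_mul_left hp hab
  have h6 := (hinj.hasSum_iff (f := fun m : ℕ => if p ∣ m then
    p * fcK f m * Complex.exp (2 * Real.pi * Complex.I * m * (z / p)) else 0) ?_).2 h3
  · have h7 := ((h1 N hN k f z hz).2.2.1).mul_left ((p : ℂ) * fcK f p)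
    have e8 : ((fun m : ℕ => if p ∣ m then
        p * fcK f m * Complex.exp (2 * Real.pi * Complex.I * m * (z / p)) else 0) ∘ fun m : ℕ => p * m) =
        fun m : ℕ => (p : ℂ) * fcK f p * (fcK f m * Complex.exp (2 * Real.pi * Complex.I * m * z)) := by
      funext m
      simp only [Function.comp, dvd_mul_right, if_true]
      rw [hU m]
      have e : 2 * Real.pi * Complex.I * ((p * m : ℕ) : ℂ) * (z / p) = 2 * Real.pi * Complex.I * m * z := by
        push_cast
        field_simp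
      rw [e]
      ring
    rw [e8] at h6
    exact h6.unique h7
  · intro x hx
    rw [if_neg]
    rintro ⟨t, rfl⟩
    exact hx ⟨t, rfl⟩

theorem hK1R : StK1R := by
  intro ka1 k1t hRW hRFE hRH p hne A hk f hp hf
  have hN0 : p ^ 1 ≠ 0 := hne.out
  have hne0 : NeZero (p ^ 0) := ⟨by simp⟩
  have hNc : ((p ^ 1 : ℕ) : ℂ) ≠ 0 := by exact_mod_cast hN0
  have hNp : ((p ^ 1 : ℕ) : ℂ) = (p : ℂ) := by simp
  have hpc : (p : ℂ) ≠ 0 := hNp ▸ hNc
  obtain ⟨g, hg⟩ := hRW (p ^ 1) hne A f
  have hgf : FrK A g f := hg.symm hN0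
  have heg : ∀ l : ℕ, l.Prime → l ≠ p → HeckeEigK g l (fcK f l) := by
    intro l hl hlp
    refine hRH (p ^ 1) hne A f g l (fcK f l) hl ?_ hg (hf.hecke l hl hlp)
    intro hd
    exact hlp ((Nat.prime_dvd_prime_iff_eq hl hp).1 (hl.dvd_of_dvd_pow hd))
  obtain ⟨h, hh⟩ := k1t p hne0 hne A g hp
  obtain ⟨κ, hκ⟩ : ∃ κ : ℂ, κ = (-1) ^ (A + 1) * ((p : ℂ) ^ (A + 1))⁻¹ * (p * fcK f p) := ⟨_, rfl⟩
  have hz1 : ∀ z : ℂ, 0 < z.im → fzK h z = fzK g z + κ * fzK f z := by
    intro z hz
    rw [hh z hz]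
    congr 1
    have hterm : ∀ i ∈ Finset.range p, ((z + i) ^ (2 * A + 2))⁻¹ * fzK g (-1 / (z + i)) =
        (-1) ^ (A + 1) * ((p : ℂ) ^ (A + 1))⁻¹ * fzK f ((z + i) / p) := by
      intro i _
      have him : 0 < (z + (i : ℂ)).im := by
        have : (z + (i : ℂ)).im = z.im := by simp
        rw [this]
        exact hz
      have him2 : 0 < ((z + i) / (p : ℂ)).im := by
        have e : (z + i) / (p : ℂ) = (((p : ℝ)⁻¹ : ℝ) : ℂ) * (z + i) := by
          push_cast
          field_simp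
        rw [e, Complex.im_ofReal_mul]
        exact mul_pos (inv_pos.2 (by exact_mod_cast hp.pos)) him
      have a1 := hgf ((z + i) / p) him2
      rw [hNp] at a1
      have e1 : -1 / ((p : ℂ) * ((z + i) / p)) = -1 / (z + i) := by
        rw [mul_div_cancel₀ _ hpc]
      rw [e1] at a1
      have hz0 : z + (i : ℂ) ≠ 0 := ne_of_im him
      rw [a1]
      have hs : ((-1 : ℂ) ^ (A + 1)) * (-1) ^ (A + 1) = 1 := by
        rw [← mul_pow]; simp
      have e2 : ((z + i) ^ (2 * A + 2))⁻¹ = ((p : ℂ) ^ (A + 1))⁻¹ *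
          ((p : ℂ) ^ (A + 1) * ((z + i) / p) ^ (2 * A + 2))⁻¹ := by
        have hx : (p : ℂ) ^ (2 * A + 2) = (p : ℂ) ^ (A + 1) * (p : ℂ) ^ (A + 1) := by
          rw [← pow_add]
          congr 1
          ring
        rw [div_pow, hx]
        have hy : (z + (i : ℂ)) ^ (2 * A + 2) ≠ 0 := pow_ne_zero _ hz0
        have hw : (p : ℂ) ^ (A + 1) ≠ 0 := pow_ne_zero _ hpc
        generalize (z + (i : ℂ)) ^ (2 * A + 2) = y at hy ⊢
        generalize (p : ℂ) ^ (A + 1) = w at hw ⊢
        field_simp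
      rw [e2]
      linear_combination -(((p : ℂ) ^ (A + 1))⁻¹ * ((p : ℂ) ^ (A + 1) * ((z + i) / p) ^ (2 * A + 2))⁻¹ *
        fzK g (-1 / (z + i))) * hs
    rw [Finset.sum_congr rfl hterm, ← Finset.mul_sum, up_sum ka1 hne f p hp.pos hf.hecke_p z hz, hκ]
    ring
  have hcoef : ∀ m : ℕ, fcK h m = fcK g m + κ * fcK f m := coeff_rel ka1 hne0 hne h g f κ hz1
  have hh0 : h = 0 := by
    refine hf.new h ?_
    intro l hl hlp m
    have b1 := heg l hl hlp m
    have b2 := hf.hecke l hl hlp m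
    rw [hcoef, hcoef, hcoef]
    by_cases hd : l ∣ m
    · rw [if_pos hd] at b1 b2 ⊢
      linear_combination b1 + κ * b2
    · rw [if_neg hd] at b1 b2 ⊢
      linear_combination b1 + κ * b2
  obtain ⟨c, hc⟩ : ∃ c : ℂ, c = -κ := ⟨_, rfl⟩
  have e1 : ∀ z : ℂ, 0 < z.im → fzK g z = c * fzK f z := by
    intro z hz
    have a1 := hz1 z hz
    have a2 : fzK h z = 0 := by
      rw [hh0]
      rfl
    rw [a2] at a1
    rw [hc]
    linear_combination -a1
  -- the square of the constant
  have hsq : c * c = 1 := by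
    have e2 : ∀ z : ℂ, 0 < z.im → fzK f z = c * c * fzK f z := by
      intro z hz
      have a1 := hgf z hz
      have a2 := e1 (-1 / (((p ^ 1 : ℕ) : ℂ) * z)) (im_WN hN0 hz)
      have a3 := hg z hz
      rw [e1 z hz] at a3
      rw [a2] at a1
      calc fzK f z = c * ((-1) ^ (A + 1) * ((((p ^ 1 : ℕ) : ℂ) ^ (A + 1) * z ^ (2 * A + 2))⁻¹ *
          fzK f (-1 / (((p ^ 1 : ℕ) : ℂ) * z)))) := by rw [a1]; ring
        _ = c * c * fzK f z := by rw [← a3]; ring
    by_contra hcc
    have hz : ∀ z : ℂ, 0 < z.im → fzK f z = 0 := by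
      intro z hz
      have h := e2 z hz
      have h' : (1 - c * c) * fzK f z = 0 := by linear_combination h
      rcases mul_eq_zero.1 h' with h'' | h''
      · exact absurd (sub_eq_zero.1 h'').symm hcc
      · exact h''
    have hf0 : f = 0 := by
      refine DFunLike.ext _ _ fun τ => ?_
      have h := hz (τ : ℂ) τ.im_pos
      unfold fzK at h
      rw [UpperHalfPlane.ofComplex_apply] at h
      exact h
    have h := hf.normalised
    rw [hf0, fc_zero] at h
    exact zero_ne_one h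
  have hcs : c = 1 ∨ c = -1 := by
    have h : (c - 1) * (c + 1) = 0 := by linear_combination hsq
    rcases mul_eq_zero.1 h with h | h
    · exact Or.inl (sub_eq_zero.1 h)
    · exact Or.inr (eq_neg_of_add_eq_zero_left h)
  have hgc : g = c • f := by
    refine DFunLike.ext _ _ fun τ => ?_
    have h := e1 (τ : ℂ) τ.im_pos
    unfold fzK at h
    rw [UpperHalfPlane.ofComplex_apply] at h
    exact h
  obtain ⟨w, hw, hwc⟩ : ∃ w : ℤ, Sg w ∧ (w : ℂ) = c := by
    rcases hcs with h | h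
    · exact ⟨1, Or.inl rfl, by rw [h]; simp⟩
    · exact ⟨-1, Or.inr rfl, by rw [h]; simp⟩
  have hfe := hRFE (p ^ 1) hne A hk f g hg
  refine ⟨w, hw, ?_, ?_⟩
  · intro s hs1 hs2
    rcases hcs with h | h
    · rw [hfe s hs1 hs2, hgc, hwc, h, one_smul, one_mul]
    · rw [hfe s hs1 hs2, hgc, hwc, h, neg_one_smul, lamK_neg, neg_one_mul]
  · intro z hz
    have a3 := hg z hz
    rw [e1 z hz] at a3
    have hz0 : z ≠ 0 := ne_of_im hz
    have hNA : ((p ^ 1 : ℕ) : ℂ) ^ (A + 1) ≠ 0 := pow_ne_zero _ hNc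
    have hzA : z ^ (2 * A + 2) ≠ 0 := pow_ne_zero _ hz0
    have hs : ((-1 : ℂ) ^ (A + 1)) * (-1) ^ (A + 1) = 1 := by
      rw [← mul_pow]; simp
    rw [hwc]
    calc fzK f (-1 / (((p ^ 1 : ℕ) : ℂ) * z)) =
        (((-1 : ℂ) ^ (A + 1)) * (-1) ^ (A + 1)) * (((p ^ 1 : ℕ) : ℂ) ^ (A + 1) * z ^ (2 * A + 2)) *
          ((((p ^ 1 : ℕ) : ℂ) ^ (A + 1) * z ^ (2 * A + 2))⁻¹ *
          fzK f (-1 / (((p ^ 1 : ℕ) : ℂ) * z))) := by
          rw [hs]
          field_simp
      _ = (-1 : ℂ) ^ (A + 1) * (((p ^ 1 : ℕ) : ℂ) ^ (A + 1) * z ^ (2 * A + 2)) *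
          (c * fzK f z) := by rw [a3]; ring
      _ = _ := by ring

end Pool.Agent.Helper83.TN
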